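import Pool.Agent.Lib.MP_dadc30_co.Main
import Pool.Agent.Lib.MP_dadc30_coG.Final

/-!
# MP_dadc30_co: unit-distance graphs of average degree `D`

`Dadc30.Plane` is `EuclideanSpace ℝ (Fin 2)`; `Dadc30.alphaU P` is the independence number of the
unit-distance graph on the finite set `P`; `Dadc30.fE n` is the minimum of `alphaU P` over all
`n`-point sets `P`.
-/

open MeasureTheory Filter Topology

namespace Pool.Agent.Results.MP_dadc30_co.DegreeGap

open Classical in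
/-- A finite unit-distance graph of average degree at most `D` has independence ratio at least
`c + κ / (D² log (D+1))`, where `c = lim f(n)/n`; also with weights. -/
theorem result : ∃ c κ : ℝ, Tendsto (fun n : ℕ => (Dadc30.fE n : ℝ) / n) atTop (𝓝 c) ∧ 0 < κ ∧
    ∀ (X : Finset Dadc30.Plane) (w : Dadc30.Plane → ℝ), (∀ x ∈ X, 0 ≤ w x) → ∀ D : ℝ, 1 ≤ D →
    ∑ x ∈ X, w x * (X.filter fun y => dist x y = 1).card ≤ D * ∑ x ∈ X, w x →
    ∃ S ⊆ X, (∀ x ∈ S, ∀ y ∈ S, dist x y ≠ 1) ∧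
      (c + κ / (D ^ 2 * Real.log (D + 1))) * ∑ x ∈ X, w x ≤ ∑ x ∈ S, w x := by
  obtain ⟨κ, hκ, h⟩ := Dadc30.Gap.degPF
  exact ⟨Dadc30.m1, κ, Dadc30.main, hκ, h⟩

end Pool.Agent.Results.MP_dadc30_co.DegreeGap
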