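import Pool.Agent.Lib.MP_dadc30_co.Main
import Pool.Agent.Lib.MP_dadc30_coR.V55.Bound

/-!
# MP_dadc30_co: an explicit upper bound for `c = lim f(n)/n`

`Dadc30.Plane` is `EuclideanSpace ℝ (Fin 2)`; `Dadc30.alphaU P` is the independence number of the
unit-distance graph on the finite set `P`; `Dadc30.fE n` is the minimum of `alphaU P` over all
`n`-point sets `P`, that is `f(n)`.

The proof: by `Dadc30.main` the limit is `m_1(ℝ²)`.  For a set of density `δ` without unit distances
let `F2 r` and `M3 (p, q, r)` be the probabilities that a random congruent copy of a pair at distance
`r`, of a triangle with the sides `p, q, r`, lies in the set.  A cubic function of the indicator of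
the set on a 55 point subset of the Moser lattice is at most `226707` on all independent sets (a
kernel computation over the 1.97 * 10^8 independent sets), its averages are linear in `δ`, `F2`
(the terms `M3` cancel in every congruence class of triangles), and a combination of the values of
`F2` is bounded below by the positivity of the spectral measure and an explicit inequality for the
Bessel function `J_0` on the half line.
-/

open Filter Topology

namespace Pool.Agent.Results.MP_dadc30_co.DensityBound

/-- The limit `c` of `f(n)/n` exists and `c ≤ 0.24433`. -/
theorem result : ∃ c : ℝ, Tendsto (fun n : ℕ => (Dadc30.fE n : ℝ) / n) atTop (𝓝 c) ∧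
    c ≤ 24433 / 100000 := by
  refine ⟨Dadc30.m1, Dadc30.main, ?_⟩
  rw [Dadc30.m1_eq_m1C]
  have h := Dadc30.V55.m1C_le
  norm_num at h ⊢
  exact h

end Pool.Agent.Results.MP_dadc30_co.DensityBound
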