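import Pool.Agent.Lib.MP_dadc30_co.Main
import Pool.Agent.Lib.MP_dadc30_coG.Final

/-!
# MP_dadc30_co: a lower bound for the error term `f(n) - c n`

`Dadc30.Plane` is `EuclideanSpace ℝ (Fin 2)`; `Dadc30.alphaU P` is the independence number of the
unit-distance graph on the finite set `P`; `Dadc30.fE n` is the minimum of `alphaU P` over all
`n`-point sets `P`.
-/

open MeasureTheory Filter Topology

namespace Pool.Agent.Results.MP_dadc30_co.ErrorTerm

/-- `f(n) ≥ c n + κ n^(1/3) / log n` for all `n ≥ 2`, where `c = lim f(n)/n`. -/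
theorem result : ∃ c κ : ℝ, Tendsto (fun n : ℕ => (Dadc30.fE n : ℝ) / n) atTop (𝓝 c) ∧ 0 < κ ∧
    ∀ n : ℕ, 2 ≤ n →
      c * n + κ * ((n : ℝ) ^ ((1 : ℝ) / 3) / Real.log n) ≤ Dadc30.fE n := by
  obtain ⟨κ, hκ, h⟩ := Dadc30.Gap.errF
  exact ⟨Dadc30.m1, κ, Dadc30.main, hκ, h⟩

end Pool.Agent.Results.MP_dadc30_co.ErrorTerm
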