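import Pool.Agent.Lib.MP_dadc30_co.Main

/-!
# MP_dadc30_co: the limit `lim f(n)/n` equals `m_1(ℝ²)`

`Dadc30.Plane` is `EuclideanSpace ℝ (Fin 2)`; `Dadc30.alphaU P` is the independence number of the
unit-distance graph on the finite set `P`; `Dadc30.fE n` is the minimum of `alphaU P` over all
`n`-point sets `P`; `Dadc30.m1` is the supremum of the upper densities (along the squares
`[-R,R]²`) of the measurable subsets of the plane without two points at distance one.
-/

open MeasureTheory Filter Topology

namespace Pool.Agent.Results.MP_dadc30_co.LimitEqualsM1

/-- Erdős's constant for independent sets in planar unit-distance graphs is the maximal density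
of a measurable planar set avoiding distance one. -/
theorem result :
    Tendsto (fun n : ℕ => (Dadc30.fE n : ℝ) / n) atTop (𝓝 Dadc30.m1) :=
  Dadc30.main

end Pool.Agent.Results.MP_dadc30_co.LimitEqualsM1
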